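import Mathlib
import Pool.Agent.Y235.EM.E3

set_option autoImplicit false
set_option linter.unusedSectionVars false
set_option linter.style.haveILetI false

/-!
Minimal Weierstrass equations, singular cubics, and the passage to any field of characteristic zero.
-/

open MvPolynomial

namespace Pool.Agent.Y235.EM

open Pool.Agent.H922R2 (IsDer GA sw elemX elemX_X0 elemX_X1 jac SS fF uy DJ_apply det_jac)
open Pool.Agent.H922R2.R
open Pool.Agent.H922R2.EL
open Pool.Agent.H938R2.EL2

section minimal

variable {k L : Type*} [Field k] [CharZero k] [Field L] [Algebra (MvPolynomial (Fin 2) k) L]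
  [IsFractionRing (MvPolynomial (Fin 2) k) L] [Algebra k L] [IsScalarTower k (MvPolynomial (Fin 2) k) L]

/-- singular cubics are rational -/
theorem sing_genM (u : MvPolynomial (Fin 2) k) (a b X Y : L)
    (ha : a ∈ IntermediateField.adjoin k {algebraMap (MvPolynomial (Fin 2) k) L u})
    (hb : b ∈ IntermediateField.adjoin k {algebraMap (MvPolynomial (Fin 2) k) L u})
    (hdisc : 4 * a ^ 3 + 27 * b ^ 2 = 0) (hXY : Y ^ 2 = X ^ 3 + a * X + b) :
    ∃ T : L, T ∈ IntermediateField.adjoin k {algebraMap (MvPolynomial (Fin 2) k) L u, X, Y} ∧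
      IntermediateField.adjoin k {algebraMap (MvPolynomial (Fin 2) k) L u, X, Y} ≤
        IntermediateField.adjoin k {algebraMap (MvPolynomial (Fin 2) k) L u, T} := by
  haveI : CharZero L := charZero_of_injective_algebraMap (algebraMap k L).injective
  have key : ∀ T : L, X ∈ IntermediateField.adjoin k {algebraMap (MvPolynomial (Fin 2) k) L u, T} →
      Y ∈ IntermediateField.adjoin k {algebraMap (MvPolynomial (Fin 2) k) L u, T} →
      IntermediateField.adjoin k {algebraMap (MvPolynomial (Fin 2) k) L u, X, Y} ≤
        IntermediateField.adjoin k {algebraMap (MvPolynomial (Fin 2) k) L u, T} := by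
    intro T hX hY
    rw [IntermediateField.adjoin_le_iff]
    rintro t (rfl | rfl | rfl)
    · exact IntermediateField.subset_adjoin _ _ (Or.inl rfl)
    · exact hX
    · exact hY
  have hmono : ∀ T z : L, z ∈ IntermediateField.adjoin k {algebraMap (MvPolynomial (Fin 2) k) L u} →
      z ∈ IntermediateField.adjoin k {algebraMap (MvPolynomial (Fin 2) k) L u, T} := by
    intro T z hz
    exact IntermediateField.adjoin.mono k {algebraMap (MvPolynomial (Fin 2) k) L u}
      {algebraMap (MvPolynomial (Fin 2) k) L u, T} (by
        intro t ht; rw [Set.mem_singleton_iff] at ht; left; exact ht) hz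
  have hTm : ∀ T : L, T ∈ IntermediateField.adjoin k {algebraMap (MvPolynomial (Fin 2) k) L u, T} := fun T =>
    IntermediateField.subset_adjoin _ _ (Or.inr rfl)
  have hnat : ∀ (T : L) (n : ℕ), (n : L) ∈ IntermediateField.adjoin k {algebraMap (MvPolynomial (Fin 2) k) L u, T} :=
    fun T n => natCast_mem _ n
  have huM : algebraMap (MvPolynomial (Fin 2) k) L u ∈
      IntermediateField.adjoin k {algebraMap (MvPolynomial (Fin 2) k) L u, X, Y} :=
    IntermediateField.subset_adjoin _ _ (Or.inl rfl)
  have hXM : X ∈ IntermediateField.adjoin k {algebraMap (MvPolynomial (Fin 2) k) L u, X, Y} :=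
    IntermediateField.subset_adjoin _ _ (Or.inr (Or.inl rfl))
  have hYM : Y ∈ IntermediateField.adjoin k {algebraMap (MvPolynomial (Fin 2) k) L u, X, Y} :=
    IntermediateField.subset_adjoin _ _ (Or.inr (Or.inr rfl))
  by_cases ha0 : a = 0
  · have hb0 : b = 0 := by
      rw [ha0] at hdisc
      have : (27 : L) * b ^ 2 = 0 := by linear_combination hdisc
      exact pow_eq_zero_iff (two_ne_zero) |>.1 ((mul_eq_zero.1 this).resolve_left (by norm_num))
    rw [ha0, hb0, zero_mul, add_zero, add_zero] at hXY
    by_cases hX : X = 0
    · have hY : Y = 0 := by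
        rw [hX] at hXY
        exact pow_eq_zero_iff (two_ne_zero) |>.1 (by rw [hXY]; ring)
      exact ⟨0, zero_mem _, key 0 (by rw [hX]; exact zero_mem _) (by rw [hY]; exact zero_mem _)⟩
    · refine ⟨Y / X, div_mem hYM hXM, key _ ?_ ?_⟩
      · have e : X = (Y / X) ^ 2 := by field_simp; linear_combination -hXY
        have h1 := pow_mem (hTm (Y / X)) 2
        rwa [← e] at h1
      · have e : Y = (Y / X) ^ 3 := by
          field_simp
          linear_combination (-Y) * hXY
        have h1 := pow_mem (hTm (Y / X)) 3
        rwa [← e] at h1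
  · set r := -(3 * b) / (2 * a) with hr
    have h2a : 2 * a ≠ 0 := mul_ne_zero two_ne_zero ha0
    have hra : a = -3 * r ^ 2 := by
      rw [hr]; field_simp; linear_combination hdisc
    have hrb : b = 2 * r ^ 3 := by
      rw [hr]; field_simp; linear_combination b * hdisc
    have hrm : r ∈ IntermediateField.adjoin k {algebraMap (MvPolynomial (Fin 2) k) L u} := by
      rw [hr]
      have e3 : (3 : L) ∈ IntermediateField.adjoin k {algebraMap (MvPolynomial (Fin 2) k) L u} := by
        have h3 := natCast_mem (IntermediateField.adjoin k {algebraMap (MvPolynomial (Fin 2) k) L u}) 3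
        push_cast at h3
        exact h3
      have e2 : (2 : L) ∈ IntermediateField.adjoin k {algebraMap (MvPolynomial (Fin 2) k) L u} := by
        have h3 := natCast_mem (IntermediateField.adjoin k {algebraMap (MvPolynomial (Fin 2) k) L u}) 2
        push_cast at h3
        exact h3
      exact div_mem (neg_mem (mul_mem e3 hb)) (mul_mem e2 ha)
    have hrM : r ∈ IntermediateField.adjoin k {algebraMap (MvPolynomial (Fin 2) k) L u, X, Y} :=
      IntermediateField.adjoin.mono k {algebraMap (MvPolynomial (Fin 2) k) L u}
        {algebraMap (MvPolynomial (Fin 2) k) L u, X, Y} (by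
          intro t ht; rw [Set.mem_singleton_iff] at ht; left; exact ht) hrm
    have hfac : Y ^ 2 = (X - r) ^ 2 * (X + 2 * r) := by
      rw [hXY, hra, hrb]; ring
    by_cases hX : X - r = 0
    · have hY : Y = 0 := by
        rw [hX] at hfac
        exact pow_eq_zero_iff (two_ne_zero) |>.1 (by rw [hfac]; ring)
      refine ⟨0, zero_mem _, key 0 ?_ (by rw [hY]; exact zero_mem _)⟩
      rw [sub_eq_zero.1 hX]
      exact hmono 0 r hrm
    · set T := Y / (X - r) with hT
      have e : X = T ^ 2 - 2 * r := by
        rw [hT]; field_simp; linear_combination -hfac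
      have hXm : X ∈ IntermediateField.adjoin k {algebraMap (MvPolynomial (Fin 2) k) L u, T} := by
        have e2 := hnat T 2
        push_cast at e2
        have h1 := sub_mem (pow_mem (hTm T) 2) (mul_mem e2 (hmono T r hrm))
        rwa [← e] at h1
      refine ⟨T, div_mem hYM (sub_mem hXM hrM), key T hXm ?_⟩
      have e2 : Y = T * (X - r) := by rw [hT]; field_simp
      rw [e2]
      exact mul_mem (hTm T) (sub_mem hXm (hmono T r hrm))

end minimal

end Pool.Agent.Y235.EM
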