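import Mathlib
import Pool.Agent.Y235.EM.E5

set_option autoImplicit false
set_option linter.unusedSectionVars false
set_option linter.style.haveILetI false

/-!
Elliptic functions of a Keller map: from an algebraically closed field with `u` monic to any field.
-/

open MvPolynomial

namespace Pool.Agent.Y235.EM

open Pool.Agent.H922R2 (IsDer GA sw elemX elemX_X0 elemX_X1 jac SS fF uy DJ_apply det_jac inverse_of_top)
open Pool.Agent.H922R2.R
open Pool.Agent.H922R2.EL
open Pool.Agent.H938R2.EL2

section closed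

variable {k : Type*} [Field k] [CharZero k] [IsAlgClosed k]

/-- no elliptic component in the three situations, over an algebraically closed field -/
theorem EM_false {L : Type*} [Field L] [Algebra (MvPolynomial (Fin 2) k) L]
    [IsFractionRing (MvPolynomial (Fin 2) k) L] [Algebra k L] [IsScalarTower k (MvPolynomial (Fin 2) k) L]
    (F : Fin 2 → MvPolynomial (Fin 2) k) (hJ : IsUnit (Matrix.det (jac F)))
    (H : UU F ∨
      (∀ c : k, Irreducible (F 0 - C c))) (a b X Y : L)
    (ha : a ∈ IntermediateField.adjoin k {algebraMap (MvPolynomial (Fin 2) k) L (F 0)})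
    (hb : b ∈ IntermediateField.adjoin k {algebraMap (MvPolynomial (Fin 2) k) L (F 0)})
    (hdisc : 4 * a ^ 3 + 27 * b ^ 2 ≠ 0) (hXY : Y ^ 2 = X ^ 3 + a * X + b)
    (hF1 : algebraMap (MvPolynomial (Fin 2) k) L (F 1) ∈
      IntermediateField.adjoin k {algebraMap (MvPolynomial (Fin 2) k) L (F 0), X, Y}) : False := by
  have hF0 : F 0 ≠ 0 := by
    intro ha
    rw [det_jac, DJ_apply, ha] at hJ
    simp at hJ
  obtain ⟨l, hl1, hl2⟩ := exists_monT (F 0) hF0
  set θ : GA k := shl l with hθ
  have hJ' := Pool.Agent.H922R2.jac_comp θ F hJ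
  obtain ⟨δ, hδ, hδe⟩ := MvPolynomial.isUnit_iff_eq_C_of_isReduced.1 (by rw [det_jac] at hJ'; exact hJ')
  have hδ0 : δ ≠ 0 := hδ.ne_zero
  set u := θ (F 0) with hu
  set v := C δ⁻¹ * θ (F 1) with hv
  have hJb : Jb u v = 1 := by
    have h1 : Jb (θ (F 0)) (θ (F 1)) = C δ := by
      rw [← hδe, DJ_apply]; rfl
    rw [hu, hv, Jb_mul, h1, Jb_C_right, mul_zero, add_zero, ← C_mul, inv_mul_cancel₀ hδ0, C_1]
  have hut : u.totalDegree = (F 0).totalDegree := shl_td l _
  have H' : (∀ h : Polynomial k, u.totalDegree < (v - uP u h).totalDegree →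
        (u.totalDegree ∣ 4 * (v - uP u h).totalDegree ∨ u.totalDegree ∣ 6 * (v - uP u h).totalDegree) →
        u.totalDegree ∣ (v - uP u h).totalDegree) ∨
      (∀ c : k, Irreducible (u - C c)) := by
    rcases H with H | H
    · left
      intro h'
      obtain ⟨h, rfl⟩ : ∃ h, h' = Polynomial.C δ⁻¹ * h := ⟨Polynomial.C δ * h', by
        rw [← mul_assoc, ← Polynomial.C_mul, inv_mul_cancel₀ hδ0, Polynomial.C_1, one_mul]⟩
      have e1 : v - uP u (Polynomial.C δ⁻¹ * h) = C δ⁻¹ * θ (F 1 - Polynomial.aeval (F 0) h) := by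
        have e2 : θ (Polynomial.aeval (F 0) h) = uP u h := by
          rw [uP, Polynomial.coe_eval₂RingHom, hu]
          have := Polynomial.aeval_algHom_apply (θ : MvPolynomial (Fin 2) k →ₐ[k] MvPolynomial (Fin 2) k) (F 0) h
          rw [AlgEquiv.coe_toAlgHom] at this
          rw [← this]
          rfl
        rw [map_sub, e2, map_mul, uP_C, hv]; ring
      have e3 : (C δ⁻¹ * θ (F 1 - Polynomial.aeval (F 0) h)).totalDegree =
          (F 1 - Polynomial.aeval (F 0) h).totalDegree := by
        have e4 : (θ (F 1 - Polynomial.aeval (F 0) h)).totalDegree = (F 1 - Polynomial.aeval (F 0) h).totalDegree :=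
          shl_td l _
        rw [← e4]
        by_cases h0 : θ (F 1 - Polynomial.aeval (F 0) h) = 0
        · rw [h0, mul_zero]
        · rw [totalDegree_mul_of_isDomain (by rw [Ne, C_eq_zero]; exact inv_ne_zero hδ0) h0, totalDegree_C, zero_add]
      rw [e1, e3, hut]
      exact H h
    · right
      intro c
      have e : u - C c = θ (F 0 - C c) := by
        rw [map_sub, hu]
        congr 1
        exact (θ.commutes c).symm
      rw [e]
      exact (MulEquiv.irreducible_iff θ).2 (H c)
  -- transport
  obtain ⟨φ, hφa, hφm, hφt⟩ := transport_gen (L₁ := L) (L₂ := L)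
    ((θ : MvPolynomial (Fin 2) k ≃ₐ[k] _) : MvPolynomial (Fin 2) k →+* _) θ.injective
    (fun a => ⟨a, θ.commutes a⟩) (fun i => ⟨θ.symm (MvPolynomial.X i), θ.apply_symm_apply _⟩)
  have hφu : φ (algebraMap _ L (F 0)) = algebraMap _ L u := hφa (F 0)
  have hF1' := hφm _ _ hF1
  have hφ1 : φ (algebraMap _ L (F 1)) = algebraMap _ L (θ (F 1)) := hφa (F 1)
  have ha' := hφm _ _ ha
  have hb' := hφm _ _ hb
  rw [Set.image_singleton, hφu] at ha' hb'
  rw [Set.image_insert_eq, Set.image_insert_eq, Set.image_singleton, hφu, hφ1] at hF1'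
  have hvm : algebraMap (MvPolynomial (Fin 2) k) L v ∈
      IntermediateField.adjoin k {algebraMap (MvPolynomial (Fin 2) k) L u, φ X, φ Y} := by
    rw [hv, map_mul]
    apply mul_mem _ hF1'
    rw [← MvPolynomial.algebraMap_eq, ← IsScalarTower.algebraMap_apply]
    exact IntermediateField.algebraMap_mem _ _
  have hXY' : (φ Y) ^ 2 = (φ X) ^ 3 + φ a * φ X + φ b := by
    rw [← map_pow, hXY, map_add, map_add, map_mul, map_pow]
  have hdisc' : 4 * (φ a) ^ 3 + 27 * (φ b) ^ 2 ≠ 0 := by
    have h1 : φ (4 * a ^ 3 + 27 * b ^ 2) ≠ 0 := by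
      rw [Ne, map_eq_zero]; exact hdisc
    rw [map_add, map_mul, map_mul, map_pow, map_pow, map_ofNat, map_ofNat] at h1
    exact h1
  have huinj := uP_inj_of u v hJb
  obtain ⟨α, β, X1, Y1, h1, h2, h3⟩ := exists_intM u huinj _ _ _ _ ha' hb' hdisc' hXY'
  obtain ⟨α', β', X2, Y2, g1, g2, g3, g4⟩ := exists_minM u huinj _ α β X1 Y1 le_rfl h1 h2
  have g5 := g4 (h3 hvm)
  have hu0 : u ≠ 0 := by
    intro h
    have := hJb
    rw [h] at this
    simp [Jb] at this
  by_cases hn : 2 ≤ u.totalDegree
  · exact main_EM2 u v hJb ⟨⟨by rw [hl1]; exact hn, hl2⟩, hl1⟩ H' α' β' g1 g2 X2 Y2 g3 g5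
  · -- linear `u`
    haveI : CharZero L := charZero_of_injective_algebraMap (algebraMap k L).injective
    have hn1 : u.totalDegree = 1 := by
      have h0 : u.totalDegree ≠ 0 := by
        intro h0
        have h4 := MvPolynomial.totalDegree_eq_zero_iff_eq_C.1 h0
        rw [h4] at hJb
        simp [Jb] at hJb
      omega
    have hDu : DL L u (algebraMap _ L u) = 0 := by rw [DL_alg, Jb_self, map_zero]
    have hX0 : DL L u X2 ≠ 0 := by
      intro hX
      have hY : DL L u Y2 = 0 := by
        have h1 := congrArg (DL L u) g3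
        rw [(DL_isDer u).add, (DL_isDer u).add, (DL_isDer u).mul, (DL_isDer u).pow, (DL_isDer u).pow, hX,
          DL_alg, DL_alg, Jb_uP, Jb_uP] at h1
        push_cast at h1
        have h2 : Y2 * DL L u Y2 = 0 := by
          have h3 : (2 : L) * (Y2 * DL L u Y2) = 0 := by
            simp only [map_zero, mul_zero, add_zero] at h1
            linear_combination h1
          exact (mul_eq_zero.1 h3).resolve_left two_ne_zero
        rcases mul_eq_zero.1 h2 with h | h
        · rw [h, (DL_isDer u).zero]
        · exact h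
      have hall : ∀ z : L, z ∈ IntermediateField.adjoin k {algebraMap (MvPolynomial (Fin 2) k) L u, X2, Y2} →
          DL L u z = 0 := by
        intro z hz
        induction hz using IntermediateField.adjoin_induction with
        | mem x hx =>
          rcases hx with rfl | rfl | rfl
          · exact hDu
          · exact hX
          · exact hY
        | algebraMap x =>
          rw [IsScalarTower.algebraMap_apply k (MvPolynomial (Fin 2) k) L, DL_alg, MvPolynomial.algebraMap_eq,
            Jb_C_right, map_zero]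
        | add x y _ _ hx hy => rw [(DL_isDer u).add, hx, hy, add_zero]
        | inv x _ hx =>
          by_cases h0 : x = 0
          · rw [h0, inv_zero, (DL_isDer u).zero]
          · rw [der_inv (DL_isDer u) _ h0, hx]; simp
        | mul x y _ _ hx hy => rw [(DL_isDer u).mul, hx, hy]; ring
      have h1 := hall (algebraMap _ L v) g5
      rw [DL_alg, hJb, map_one] at h1
      exact one_ne_zero h1
    obtain ⟨f, hf1, hf2, hY0⟩ := exists_f u huinj α' β' g1 X2 Y2 g3 hX0
    obtain ⟨G, hG⟩ := f_mem u huinj α' β' g1 g2 X2 Y2 f g3 hf1 hf2 hX0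
    have hG0 : G ≠ 0 := by
      rintro rfl
      rw [map_zero] at hG
      rw [hG, mul_zero] at hf1
      exact hX0 hf1
    have hNex : ∃ N : ℕ, α'.natDegree ≤ 4 * N ∧ β'.natDegree ≤ 6 * N :=
      ⟨α'.natDegree + β'.natDegree, by omega, by omega⟩
    classical
    set N := Nat.find hNex with hNd
    have hN1 := Nat.find_spec hNex
    have hN2 : ∀ m < N, ¬ (α'.natDegree ≤ 4 * m ∧ β'.natDegree ≤ 6 * m) := fun m hm => Nat.find_min hNex hm
    rw [← hNd] at hN1
    have hNmin : ¬ ((α' = 0 ∨ α'.natDegree + 4 ≤ 4 * N) ∧ (β' = 0 ∨ β'.natDegree + 6 ≤ 6 * N)) := by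
      rintro ⟨h1, h2⟩
      rcases Nat.eq_zero_or_pos N with h0 | h0
      · rw [h0] at h1 h2
        have ha : α' = 0 := by rcases h1 with h | h; exact h; omega
        have hb : β' = 0 := by rcases h2 with h | h; exact h; omega
        apply g1; rw [ha, hb]; ring
      · apply hN2 (N - 1) (by omega)
        constructor
        · rcases h1 with h | h
          · rw [h, Polynomial.natDegree_zero]; omega
          · omega
        · rcases h2 with h | h
          · rw [h, Polynomial.natDegree_zero]; omega
          · omega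
    have hord := ord_inf (0 : HahnSeries ℚ k) (Lb.zero _) u hu0
    rw [hn1] at hord
    push_cast at hord
    have h5 := lemInf (VE L (-1) (0 : HahnSeries ℚ k)) u (-1) 1 one_pos hu0 (by rw [VE_alg, hord]) (by
      intro z hz
      have := VE_jac (L := L) (-1) (0 : HahnSeries ℚ k) u z hz
      rwa [hord] at this) α' β' N hNmin X2 Y2 f g3 hf1 hf2 hX0
    have h6 := Vinf_le (L := L) G hG0
    rw [← hG] at h6
    have h7 : (0 : ℚ) ≤ N := Nat.cast_nonneg _
    linarith

end closed

section any

variable {k : Type*} [Field k] [CharZero k]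

/-- the discriminant vanishes, over any field -/
theorem EM_disc (F : Fin 2 → MvPolynomial (Fin 2) k) (hJ : IsUnit (Matrix.det (jac F)))
    (H : UU F ∨
      (∀ c : AlgebraicClosure k, Irreducible (map (algebraMap k (AlgebraicClosure k)) (F 0) - C c)))
    (a b X Y : FractionRing (MvPolynomial (Fin 2) k))
    (ha : a ∈ IntermediateField.adjoin k {algebraMap (MvPolynomial (Fin 2) k)
      (FractionRing (MvPolynomial (Fin 2) k)) (F 0)})
    (hb : b ∈ IntermediateField.adjoin k {algebraMap (MvPolynomial (Fin 2) k)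
      (FractionRing (MvPolynomial (Fin 2) k)) (F 0)})
    (hXY : Y ^ 2 = X ^ 3 + a * X + b)
    (hF1 : algebraMap (MvPolynomial (Fin 2) k) (FractionRing (MvPolynomial (Fin 2) k)) (F 1) ∈
      IntermediateField.adjoin k
        {algebraMap (MvPolynomial (Fin 2) k) (FractionRing (MvPolynomial (Fin 2) k)) (F 0), X, Y}) :
    4 * a ^ 3 + 27 * b ^ 2 = 0 := by
  by_contra hdisc
  haveI : CharZero (AlgebraicClosure k) := charZero_of_injective_algebraMap
    (algebraMap k (AlgebraicClosure k)).injective
  obtain ⟨φ, hφa, hφm, -⟩ := transport_gen (L₁ := FractionRing (MvPolynomial (Fin 2) k))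
    (L₂ := FractionRing (MvPolynomial (Fin 2) (AlgebraicClosure k)))
    (map (algebraMap k (AlgebraicClosure k))) (MvPolynomial.map_injective _ (algebraMap k (AlgebraicClosure k)).injective)
    (fun a => ⟨algebraMap k (AlgebraicClosure k) a, map_C _ _⟩) (fun i => ⟨MvPolynomial.X i, map_X _ _⟩)
  have he : ∀ i, map (algebraMap k (AlgebraicClosure k)) (F i) =
      Pool.Agent.H922R2.mE k (AlgebraicClosure k) (Fin 2) (F i) := fun i => rfl
  have hφu := hφa (F 0)
  have hφv := hφa (F 1)
  rw [he] at hφu hφv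
  have hF1' := hφm _ _ hF1
  have ha' := hφm _ _ ha
  have hb' := hφm _ _ hb
  rw [Set.image_singleton, hφu] at ha' hb'
  rw [Set.image_insert_eq, Set.image_insert_eq, Set.image_singleton, hφu, hφv] at hF1'
  have hXY' : (φ Y) ^ 2 = (φ X) ^ 3 + φ a * φ X + φ b := by
    rw [← map_pow, hXY, map_add, map_add, map_mul, map_pow]
  have hdisc' : 4 * (φ a) ^ 3 + 27 * (φ b) ^ 2 ≠ 0 := by
    have h1 : φ (4 * a ^ 3 + 27 * b ^ 2) ≠ 0 := by
      rw [Ne, map_eq_zero]; exact hdisc
    rw [map_add, map_mul, map_mul, map_pow, map_pow, map_ofNat, map_ofNat] at h1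
    exact h1
  exact EM_false (fun i => Pool.Agent.H922R2.mE k (AlgebraicClosure k) (Fin 2) (F i))
    (Pool.Agent.H922R2.jac_mE (E := AlgebraicClosure k) F hJ) (by
      rcases H with H | H
      · left
        apply UU_base F _ H
        by_contra h0
        have h4 := MvPolynomial.totalDegree_eq_zero_iff_eq_C.1 (by omega : (F 0).totalDegree = 0)
        rw [det_jac, DJ_apply, h4] at hJ
        simp at hJ
      · right
        intro c
        rw [← he]
        exact H c)
    (φ a) (φ b) (φ X) (φ Y) ha' hb' hdisc' hXY' hF1'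

/-- fields over which the map is an elliptic function, over any field -/
theorem EM_any (F : Fin 2 → MvPolynomial (Fin 2) k) (hJ : IsUnit (Matrix.det (jac F)))
    (H : UU F ∨
      (∀ c : AlgebraicClosure k, Irreducible (map (algebraMap k (AlgebraicClosure k)) (F 0) - C c)))
    (a b X Y : FractionRing (MvPolynomial (Fin 2) k))
    (ha : a ∈ IntermediateField.adjoin k {algebraMap (MvPolynomial (Fin 2) k)
      (FractionRing (MvPolynomial (Fin 2) k)) (F 0)})
    (hb : b ∈ IntermediateField.adjoin k {algebraMap (MvPolynomial (Fin 2) k)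
      (FractionRing (MvPolynomial (Fin 2) k)) (F 0)})
    (hXY : Y ^ 2 = X ^ 3 + a * X + b)
    (hF1 : algebraMap (MvPolynomial (Fin 2) k) (FractionRing (MvPolynomial (Fin 2) k)) (F 1) ∈
      IntermediateField.adjoin k
        {algebraMap (MvPolynomial (Fin 2) k) (FractionRing (MvPolynomial (Fin 2) k)) (F 0), X, Y}) :
    4 * a ^ 3 + 27 * b ^ 2 = 0 ∧
    IntermediateField.adjoin k
        {algebraMap (MvPolynomial (Fin 2) k) (FractionRing (MvPolynomial (Fin 2) k)) (F 0), X, Y} =
      IntermediateField.adjoin k (Set.range fun j =>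
        algebraMap (MvPolynomial (Fin 2) k) (FractionRing (MvPolynomial (Fin 2) k)) (F j)) ∧
    (IntermediateField.adjoin k
        {algebraMap (MvPolynomial (Fin 2) k) (FractionRing (MvPolynomial (Fin 2) k)) (F 0), X, Y} = ⊤ →
      ∃ G : Fin 2 → MvPolynomial (Fin 2) k,
        (∀ j, aeval F (G j) = MvPolynomial.X j) ∧ (∀ j, aeval G (F j) = MvPolynomial.X j)) := by
  have hdisc := EM_disc F hJ H a b X Y ha hb hXY hF1
  refine ⟨hdisc, ?_⟩
  obtain ⟨T, hT1, hT2⟩ := sing_genM (F 0) a b X Y ha hb hdisc hXY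
  set M := IntermediateField.adjoin k
    {algebraMap (MvPolynomial (Fin 2) k) (FractionRing (MvPolynomial (Fin 2) k)) (F 0), X, Y} with hMd
  have hF0 : algebraMap (MvPolynomial (Fin 2) k) (FractionRing (MvPolynomial (Fin 2) k)) (F 0) ∈ M :=
    IntermediateField.subset_adjoin _ _ (Or.inl rfl)
  have hMT : M = IntermediateField.adjoin k {algebraMap (MvPolynomial (Fin 2) k)
      (FractionRing (MvPolynomial (Fin 2) k)) (F 0), T} := by
    apply le_antisymm hT2
    rw [IntermediateField.adjoin_le_iff]
    rintro t (rfl | rfl)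
    · exact hF0
    · exact hT1
  apply Pool.Agent.Y235.JC.RM_field F hJ AlgEquiv.refl M (by
    intro j
    fin_cases j
    · exact hF0
    · exact hF1) T
  rw [hMT]
  simp

end any

end Pool.Agent.Y235.EM
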